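import Pool.Agent.N226.SX.Form
import Pool.Agent.N929.AP.Main

/-!
# Polyominoes: asymptotic forms and expansions along sparse sizes

`Kl.t n` is the number of fixed polyominoes with `n` cells (classes of connected `n`-sets of cells of
the square lattice modulo translations).
-/

set_option autoImplicit false

namespace Pool.Agent.Results.MP_d35578_co.ExpansionsFromSparseSizes

open Finset Filter Topology Pool.Agent.N789

/-- The expansion `θ log n + ∑ a_i n ^ (-ε_i)`. -/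
noncomputable def expansion (q : ℕ) (θ : ℝ) (a ε : Fin q → ℝ) (n : ℕ) : ℝ :=
  θ * Real.log n + ∑ i, a i * (n : ℝ) ^ (-(ε i))

/-- **Theorem.** Let `B_n = Kl.t n` be the number of fixed polyominoes with `n` cells and `α` the
limit of `B_n^(1/n)`. Let `u_j → ∞` be integers with gaps at most `u_j ^ κ` for some `κ < 1/2` (for
instance `u_j = ⌊j^1.99⌋`).

(1) If `B_n ~ A α^n n^θ` along the sizes `n = u_j`, with any `A > 0` and real `θ`, then
`B_n ~ A α^n n^θ` as `n → ∞`.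

(2) If `log (B_n / α^n) = θ log n + ∑ a_i n ^ (-ε_i) + O(n^(-M))` along `n = u_j`, a finite expansion
with any real exponents `ε_i ≥ 0` and `M ≥ 0`, then for every `s ≥ 0` and `b < 1/2` the `s`-th
difference of `log (B_n / α^n) - θ log n - ∑ a_i n ^ (-ε_i)` is `O(n^(-M - b s))` as `n → ∞`; for
`s = 0` the expansion holds at all sizes with the same error term. -/
theorem result : ∃ α : ℝ, 1 ≤ α ∧
    Tendsto (fun n : ℕ => (Kl.t n : ℝ) ^ ((1 : ℝ) / n)) atTop (𝓝 α) ∧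
    ∀ κ : ℝ, 0 ≤ κ → κ < 1 / 2 → ∀ u : ℕ → ℕ, Tendsto u atTop atTop →
      (∀ᶠ j : ℕ in atTop, (u (j + 1) : ℝ) ≤ u j + (u j : ℝ) ^ κ) →
      (∀ A θ : ℝ, 0 < A →
        Tendsto (fun j : ℕ => (Kl.t (u j) : ℝ) / (α ^ u j * (u j : ℝ) ^ θ)) atTop (𝓝 A) →
        Tendsto (fun n : ℕ => (Kl.t n : ℝ) / (α ^ n * (n : ℝ) ^ θ)) atTop (𝓝 A)) ∧
      ∀ (q : ℕ) (θ : ℝ) (a ε : Fin q → ℝ), (∀ i, 0 ≤ ε i) → ∀ M : ℝ, 0 ≤ M →
        (∃ C : ℝ, ∀ᶠ j : ℕ in atTop,
          |Real.log ((Kl.t (u j) : ℝ) / α ^ u j) - expansion q θ a ε (u j)| ≤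
            C * (u j : ℝ) ^ (-M)) →
        ∀ (s : ℕ) (b : ℝ), 0 ≤ b → b < 1 / 2 → ∃ C : ℝ, ∀ᶠ n : ℕ in atTop,
          |∑ i ∈ range (s + 1), (-1 : ℝ) ^ i * (s.choose i : ℝ) *
            (Real.log ((Kl.t (n + i) : ℝ) / α ^ (n + i)) - expansion q θ a ε (n + i))| ≤
            C * (n : ℝ) ^ (-(M + b * s)) := by
  refine ⟨Kl.lam, Kl.one_le_lam, Kl.tendsto_lam, fun κ hκ0 hκ u hu hgap => ?_⟩
  obtain ⟨P, hP⟩ : ∃ P : ℕ → ℝ, P = fun n => (Kl.t n : ℝ) / Kl.lam ^ n := ⟨_, rfl⟩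
  have hl0 : 0 < Kl.lam := Kl.lam_pos
  have hpos : ∀ᶠ n : ℕ in atTop, 0 < P n := by
    filter_upwards [eventually_ge_atTop 1] with n hn
    have : (0 : ℝ) < Kl.t n := by exact_mod_cast Kl.t_pos hn
    rw [hP]
    positivity
  have hreg : Pool.Agent.N226.SX.Reg (1 / 2) (fun n => Real.log (P n)) := by
    refine Pool.Agent.N226.SX.reg_of_log_one fun r hr => ?_
    obtain ⟨K, -, h⟩ := Pool.Agent.N929.AP.orders r hr
    refine ⟨K, (eventually_ge_atTop 2).mono fun n hn => ?_⟩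
    rw [hP]
    exact h n hn
  constructor
  · intro A θ hA hval
    have e : ∀ n : ℕ, (Kl.t n : ℝ) / (Kl.lam ^ n * (n : ℝ) ^ θ) = P n / (n : ℝ) ^ θ := fun n => by
      rw [hP, div_div]
    simp only [e] at hval ⊢
    exact Pool.Agent.N226.SX.form_one (by norm_num) hpos hreg κ hκ0 hκ u hu hgap θ A hA hval
  · intro q θ a ε hε M hM hval s b hb0 hb
    have h := Pool.Agent.N226.SX.sparse (hreg.sub (Pool.Agent.N226.SX.reg_G1 (1 / 2)
      (by norm_num) q θ a ε hε)) (by norm_num) hM hκ0 hκ u hu hgap (by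
        rw [hP]
        exact hval) s b hb0 hb
    obtain ⟨C, hC⟩ := h
    refine ⟨C, hC.mono fun n hn => ?_⟩
    rw [hP] at hn
    exact hn

end Pool.Agent.Results.MP_d35578_co.ExpansionsFromSparseSizes
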